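import Pool.Agent.Helper79.GR.DF
import Pool.Agent.Helper79.GR.DC

/-!
# Project PG (MP_13b103_pr): the passage time when one weight is changed

Weights `c` in `[a, B]`; `S` a finite set of edges whose weights are at most `b ≤ B`.
The passage time is monotone in the weights, and raising the weight of one edge `e ∈ S` to `b`
raises the passage time by at most `b - a` if `e` lies on a fixed geodesic and not at all
otherwise.  A geodesic has at most `B * n1 (y - x) / a` edges.
-/

set_option autoImplicit false

namespace Pool.Agent.Helper33.PG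

open Pool.Agent.Helper79.GR

theorem cost_mono {d : ℕ} {c c' : Edge d → ℝ} (h : ∀ e, c e ≤ c' e) (x : V d)
    (w : List (St d)) : cost c x w ≤ cost c' x w := by
  induction w generalizing x with
  | nil => exact le_refl (0 : ℝ)
  | cons s w ih => exact add_le_add (h (ed x s)) (ih (x + sv s))

/-- the passage time is monotone in the weights -/
theorem T_mono {d : ℕ} {a b a' b' : ℝ} {c c' : Edge d → ℝ} (hc : Bd a b c) (hc' : Bd a' b' c')
    (h : ∀ e, c e ≤ c' e) (x y : V d) : T c x y ≤ T c' x y := by
  obtain ⟨w, hw, hcw⟩ := exists_min hc' x y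
  rw [← hcw]
  exact (T_le_cost hc hw).trans (cost_mono h x w)

theorem Bd_update {d : ℕ} [DecidableEq (Edge d)] {a B : ℝ} {c : Edge d → ℝ} (h : Bd a B c)
    (e : Edge d) {t : ℝ} (h1 : a ≤ t) (h2 : t ≤ B) : Bd a B (Function.update c e t) := by
  refine ⟨h.1, fun f => ?_⟩
  by_cases hf : f = e
  · subst hf
    rw [Function.update_self]
    exact ⟨h1, h2⟩
  · rw [Function.update_of_ne hf]
    exact h.2 f

theorem sum_update {α : Type*} [DecidableEq α] (c : α → ℝ) (e : α) (t : ℝ) (L : List α)
    (hn : L.Nodup) :
    (L.map (Function.update c e t)).sum = (L.map c).sum + (if e ∈ L then t - c e else 0) := by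
  induction L with
  | nil => simp
  | cons f L ih =>
    rw [List.nodup_cons] at hn
    rw [List.map_cons, List.sum_cons, List.map_cons, List.sum_cons, ih hn.2]
    by_cases hf : e = f
    · subst hf
      rw [Function.update_self, if_neg hn.1, if_pos List.mem_cons_self]
      ring
    · rw [Function.update_of_ne (Ne.symm hf)]
      have : (e ∈ f :: L) ↔ e ∈ L := by
        rw [List.mem_cons]
        exact ⟨fun h => h.resolve_left hf, Or.inr⟩
      simp only [this]
      ring

theorem cost_update {d : ℕ} [DecidableEq (Edge d)] (c : Edge d → ℝ) (e : Edge d) (t : ℝ)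
    (x : V d) (w : List (St d)) (hn : (eds x w).Nodup) :
    cost (Function.update c e t) x w =
      cost c x w + (if e ∈ eds x w then t - c e else 0) := by
  rw [cost_eq_sum, cost_eq_sum]
  convert sum_update c e t _ hn

theorem T_update_ge {d : ℕ} [DecidableEq (Edge d)] {a B : ℝ} {c : Edge d → ℝ} (h : Bd a B c)
    (e : Edge d) {t : ℝ} (h1 : c e ≤ t) (h2 : t ≤ B) (x y : V d) :
    T c x y ≤ T (Function.update c e t) x y := by
  refine T_mono h (Bd_update h e ((h.2 e).1.trans h1) h2) (fun f => ?_) x y
  by_cases hf : f = e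
  · subst hf
    rw [Function.update_self]
    exact h1
  · rw [Function.update_of_ne hf]

/-- raising one weight costs nothing off a geodesic -/
theorem T_update_le {d : ℕ} [DecidableEq (Edge d)] {a B : ℝ} {c : Edge d → ℝ} (h : Bd a B c)
    {x : V d} {w : List (St d)} (hw : Geo c x w) (e : Edge d) {t : ℝ} (h1 : c e ≤ t)
    (h2 : t ≤ B) :
    T (Function.update c e t) x (pos x w) ≤
      T c x (pos x w) + (if e ∈ eds x w then t - c e else 0) := by
  have h3 := T_le_cost (Bd_update h e ((h.2 e).1.trans h1) h2) (rfl : pos x w = pos x w)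
  rw [cost_update c e t x w (hw.nodup h), (geo_iff h x w).1 hw] at h3
  exact h3

/-- **the Herbst sum**: the squares of the increments when single weights are raised -/
theorem sum_sq_update {d : ℕ} [DecidableEq (Edge d)] {a b B : ℝ} {c : Edge d → ℝ}
    (h : Bd a B c) (hbB : b ≤ B) (S : Finset (Edge d)) (hS : ∀ e ∈ S, c e ≤ b) (x y : V d) :
    ∑ e ∈ S, (T (Function.update c e b) x y - T c x y) ^ 2 ≤
      (b - a) ^ 2 * (B * n1 (y - x) / a) := by
  obtain ⟨w, hw, hcw⟩ := exists_min h x y
  have hg : Geo c x w := by
    rw [geo_iff h, hw]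
    exact hcw
  subst hw
  have hlen : ((eds x w).length : ℝ) ≤ B * n1 (pos x w - x) / a := by
    rw [length_eds, le_div_iff₀ h.1, mul_comm]
    exact length_geo h hg
  have hle : ∀ e ∈ S, (T (Function.update c e b) x (pos x w) - T c x (pos x w)) ^ 2 ≤
      (if e ∈ eds x w then (b - a) ^ 2 else 0) := by
    intro e he
    have h1 := T_update_ge h e (hS e he) hbB x (pos x w)
    have h2 := T_update_le h hg e (hS e he) hbB
    by_cases hm : e ∈ eds x w
    · rw [if_pos hm] at h2 ⊢
      have h3 := (h.2 e).1
      apply pow_le_pow_left₀ (by linarith)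
      linarith
    · rw [if_neg hm] at h2 ⊢
      have h3 : T (Function.update c e b) x (pos x w) - T c x (pos x w) = 0 := by linarith
      rw [h3]
      norm_num
  refine (Finset.sum_le_sum hle).trans ?_
  rw [← Finset.sum_filter, Finset.sum_const, nsmul_eq_mul, mul_comm]
  refine mul_le_mul_of_nonneg_left ?_ (sq_nonneg _)
  refine le_trans ?_ hlen
  have h4 : (S.filter (fun e => e ∈ eds x w)).card ≤ (eds x w).toFinset.card := by
    apply Finset.card_le_card
    intro e he
    rw [Finset.mem_filter] at he
    exact List.mem_toFinset.2 he.2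
  exact_mod_cast h4.trans (List.toFinset_card_le _)

end Pool.Agent.Helper33.PG
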