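import Pool.Agent.Helper79.PG.Defs
import Pool.Agent.Helper94.PG.HerbstI
import Pool.Agent.Helper33.PG.Upd

/-!
# Project PG (MP_13b103_pr), block B: the Herbst bound for the passage time `T (cut B R c)`
-/

set_option autoImplicit false

namespace Pool.Agent.Helper33.PG

open MeasureTheory ProbabilityTheory
open Pool.Agent.Helper79.GR Pool.Agent.Helper79.PG Pool.Agent.Helper94.PG

variable {Ω : Type*} [MeasurableSpace Ω] {d : ℕ} {P : Measure Ω} {X : Edge d → Ω → ℝ}
  {ν : Measure ℝ} {a b B : ℝ}

/-- the constant of the Herbst bound -/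
noncomputable def CB (a b B : ℝ) : ℝ := (b - a) ^ 2 * B / (2 * a)

theorem measurable_cut (B : ℝ) (R : Finset (Edge d)) :
    Measurable fun c : Edge d → ℝ => cut B R c := by
  refine measurable_pi_lambda _ fun e => ?_
  unfold cut
  by_cases he : e ∈ R
  · simp only [he, if_true]
    exact measurable_pi_apply e
  · simp only [he, if_false]
    exact measurable_const

theorem measurable_T_cut (B : ℝ) (R : Finset (Edge d)) (x y : V d) :
    Measurable fun c : Edge d → ℝ => T (cut B R c) x y :=
  (measurable_T_cfg x y).comp (measurable_cut B R)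

theorem measurable_T_cut_env (h : Env P X ν a b) (R : Finset (Edge d)) (x y : V d) :
    Measurable fun ω => T (cut B R (cf X ω)) x y :=
  (measurable_T_cut B R x y).comp (measurable_pi_lambda _ fun e => h.meas e)

theorem cut_update [DecidableEq (Edge d)] (B : ℝ) {R : Finset (Edge d)} (c : Edge d → ℝ)
    {e : Edge d} (he : e ∈ R) (t : ℝ) :
    cut B R (Function.update c e t) = Function.update (cut B R c) e t := by
  funext f
  unfold cut
  by_cases hf : f = e
  · subst hf
    rw [if_pos he, Function.update_self, Function.update_self]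
  · rw [Function.update_of_ne hf, Function.update_of_ne hf]

theorem T_cut_bd {c : Edge d → ℝ} (h : Bd a b c) (hab : a ≤ b) (hB : b ≤ B)
    (R : Finset (Edge d)) (x y : V d) :
    0 ≤ T (cut B R c) x y ∧ T (cut B R c) x y ≤ B * n1 (y - x) := by
  have h1 := cut_bd h hab hB R
  exact ⟨(mul_nonneg h1.1.le (n1_nonneg _)).trans (le_T h1 x y), T_le h1 x y⟩

/-- **Herbst's bound**, also for weights `B` off a finite set of edges -/
theorem herbst_cut (h : Env P X ν a b) (hB : b ≤ B) (R : Finset (Edge d)) (x y : V d) {l : ℝ}
    (hl : 0 ≤ l) :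
    ∫ ω, Real.exp (-(l * T (cut B R (cf X ω)) x y)) ∂P ≤
      Real.exp (-(l * ∫ ω, T (cut B R (cf X ω)) x y ∂P) + CB a b B * l ^ 2 * n1 (y - x)) := by
  classical
  have := h.prob
  obtain ⟨ω₀⟩ := nonempty_of_isProbabilityMeasure P
  by_cases hne : Nonempty (Edge d)
  · obtain ⟨e₀⟩ := hne
    have hab : a ≤ b := (h.bd e₀ ω₀).1.trans (h.bd e₀ ω₀).2
    have hbd : ∀ c : Edge d → ℝ, Box a b c → Bd a b c := fun c hc => ⟨h.apos, hc⟩
    have key := herbst (P := P) h.meas h.indep h.bd R (Z := fun c => T (cut B R c) x y)
      (M := B * n1 (y - x)) (K := (b - a) ^ 2 * (B * n1 (y - x) / a))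
      (measurable_T_cut B R x y) ?_ ?_ ?_ ?_ hl
    · refine key.trans (le_of_eq ?_)
      have ha := h.apos.ne'
      have e1 : l ^ 2 * ((b - a) ^ 2 * (B * n1 (y - x) / a)) / 2 =
          CB a b B * l ^ 2 * n1 (y - x) := by
        unfold CB
        field_simp
      rw [e1]
      rfl
    · intro c c' _ _ hcc
      have : cut B R c = cut B R c' := by
        funext e
        unfold cut
        split_ifs with he
        · exact hcc e he
        · rfl
      simp only [this]
    · intro c hc
      have h1 := T_cut_bd (hbd c hc) hab hB R x y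
      rw [abs_of_nonneg h1.1]
      exact h1.2
    · intro c hc e he
      rw [cut_update B c he]
      refine T_update_ge (cut_bd (hbd c hc) hab hB R) e ?_ hB x y
      unfold cut
      rw [if_pos he]
      exact (hc e).2
    · intro c hc
      have h1 := sum_sq_update (cut_bd (hbd c hc) hab hB R) hB R (fun e he => by
        unfold cut
        rw [if_pos he]
        exact (hc e).2) x y
      refine le_trans (le_of_eq ?_) h1
      refine Finset.sum_congr rfl fun e he => ?_
      rw [cut_update B c he]
  · -- no edges: dimension zero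
    have hxy : x = y := by
      obtain ⟨w, hw, -⟩ := exists_walk x y
      cases w with
      | nil => exact hw
      | cons s w => exact absurd ⟨ed x s⟩ hne
    subst hxy
    have hT : ∀ c : Edge d → ℝ, T (cut B R c) x x = 0 := by
      intro c
      have hc : Bd a 1 (cut B R c) := ⟨h.apos, fun e => absurd ⟨e⟩ hne⟩
      refine le_antisymm ?_ ?_
      · have := T_le_cost hc (show pos x [] = x from rfl)
        exact this
      · have := le_T hc x x
        rwa [sub_self, n1_zero, mul_zero] at this
    simp [hT, n1_zero]

end Pool.Agent.Helper33.PG
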