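import Pool.Agent.Helper79.PG.Defs

/-!
# Project PG (MP_13b103_pr), block G: the edges of a geodesic for the weights `cut B R c`
-/

set_option autoImplicit false

namespace Pool.Agent.Helper33.PG

open Pool.Agent.Helper79.GR Pool.Agent.Helper79.PG

variable {d : ℕ} {a b B : ℝ}

/-- `cut_bd` without `a ≤ b` -/
theorem cut_bd' {c : Edge d → ℝ} (h : Bd a b c) (hB : b ≤ B) (R : Finset (Edge d)) :
    Bd a B (cut B R c) := by
  refine ⟨h.1, fun e => ?_⟩
  have h1 := h.2 e
  unfold cut
  split_ifs
  · exact ⟨h1.1, h1.2.trans hB⟩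
  · exact ⟨h1.1.trans (h1.2.trans hB), le_rfl⟩

open Classical in
/-- the cost of a walk without repeated edges for the cut weights -/
theorem cost_cut (B : ℝ) (R : Finset (Edge d)) (c : Edge d → ℝ) (x : V d) (w : List (St d))
    (hn : (eds x w).Nodup) :
    cost (cut B R c) x w = ∑ e ∈ R.filter (fun e => e ∈ eds x w), c e +
      B * (w.length - (R.filter (fun e => e ∈ eds x w)).card) := by
  rw [cost_eq_sum, ← List.sum_toFinset _ hn]
  have hsplit := Finset.sum_filter_add_sum_filter_not (eds x w).toFinset (fun e => e ∈ R)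
    (cut B R c)
  rw [← hsplit]
  have h1 : (eds x w).toFinset.filter (fun e => e ∈ R) = R.filter (fun e => e ∈ eds x w) := by
    ext e
    rw [Finset.mem_filter, Finset.mem_filter, List.mem_toFinset, and_comm]
  have h2 : ∑ e ∈ (eds x w).toFinset.filter (fun e => e ∈ R), cut B R c e =
      ∑ e ∈ R.filter (fun e => e ∈ eds x w), c e := by
    rw [h1]
    refine Finset.sum_congr rfl fun e he => ?_
    unfold cut
    rw [if_pos (Finset.mem_filter.1 he).1]
  have h3 : ∑ e ∈ (eds x w).toFinset.filter (fun e => e ∉ R), cut B R c e =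
      ((eds x w).toFinset.filter (fun e => e ∉ R)).card * B := by
    rw [← nsmul_eq_mul, ← Finset.sum_const]
    refine Finset.sum_congr rfl fun e he => ?_
    unfold cut
    rw [if_neg (Finset.mem_filter.1 he).2]
  have h4 : (w.length : ℝ) = (R.filter (fun e => e ∈ eds x w)).card +
      ((eds x w).toFinset.filter (fun e => e ∉ R)).card := by
    have h5 := Finset.card_filter_add_card_filter_not (s := (eds x w).toFinset) (fun e => e ∈ R)
    rw [List.toFinset_card_of_nodup hn, length_eds, h1] at h5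
    exact_mod_cast h5.symm
  rw [h2, h3, h4]
  ring

open Classical in
/-- **the edges of a geodesic in `R`** -/
theorem cnt {c : Edge d → ℝ} (hc : Bd a b c) (hB : b ≤ B) (R : Finset (Edge d)) (q : V d) :
    ∃ w : List (St d), pos 0 w = q ∧ (eds 0 w).Nodup ∧ n1 q ≤ w.length ∧
      a * w.length ≤ T (cut B R c) 0 q ∧
      B * (w.length - (R.filter (fun e => e ∈ eds 0 w)).card : ℝ) ≤ T (cut B R c) 0 q ∧
      ∀ c', Bd a b c' → T (cut B R c') 0 q ≤
        T (cut B R c) 0 q + ∑ e ∈ R.filter (fun e => e ∈ eds 0 w), (c' e - c e) := by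
  have hcut := cut_bd' hc hB R
  obtain ⟨w, hw, hcw⟩ := exists_min hcut 0 q
  have hg : Geo (cut B R c) 0 w := by
    rw [geo_iff hcut, hw]
    exact hcw
  have hn := hg.nodup hcut
  refine ⟨w, hw, hn, ?_, ?_, ?_, ?_⟩
  · have := n1_pos_sub_le 0 w
    rwa [hw, sub_zero] at this
  · rw [← hcw]
    exact le_cost hcut 0 w
  · rw [← hcw, cost_cut B R c 0 w hn]
    have : 0 ≤ ∑ e ∈ R.filter (fun e => e ∈ eds 0 w), c e :=
      Finset.sum_nonneg fun e _ => hc.1.le.trans (hc.2 e).1
    linarith
  · intro c' hc'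
    have h1 := T_le_cost (cut_bd' hc' hB R) hw
    rw [cost_cut B R c' 0 w hn] at h1
    rw [← hcw, cost_cut B R c 0 w hn, Finset.sum_sub_distrib]
    linarith

end Pool.Agent.Helper33.PG
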