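import Mathlib

/-!
# Project PG (MP_13b103_pr): the coupling for lowering weights

`ν` a probability measure on the line, `A`, `U` disjoint measurable sets (`A` low, `U` high
values).  A value in `U` is replaced with probability `ε / ν U` by a fresh value of law `ν (· | A)`.
The new law is `ν.withDensity dn`.  If `G x' ≤ G x + ∑ i ∈ w x, (x' i - x i)` then the mean of `G`
drops by at least `(ε / ν U) * (β - α) * ∫ N` where `N x ≤ #{i ∈ w x | x i ∈ U}`.
-/

set_option autoImplicit false

namespace Pool.Agent.Helper33.PG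

open MeasureTheory

open Classical in
/-- the new value: `q.2` if the old value `q.1` is high and `q.2` is low, else the old value -/
noncomputable def Fm (A U : Set ℝ) (q : ℝ × ℝ) : ℝ := if q.1 ∈ U ∧ q.2 ∈ A then q.2 else q.1

/-- the law of the auxiliary variable -/
noncomputable def pm (ν : Measure ℝ) (A : Set ℝ) (c0 θ : ℝ) : Measure ℝ :=
  ENNReal.ofReal θ • ((ν A)⁻¹ • ν.restrict A) + ENNReal.ofReal (1 - θ) • Measure.dirac c0

/-- the density of the new law -/
noncomputable def dn (ν : Measure ℝ) (A U : Set ℝ) (ε : ℝ) (t : ℝ) : ℝ :=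
  1 + ε * (A.indicator (fun _ => (1 : ℝ)) t / ν.real A - U.indicator (fun _ => (1 : ℝ)) t / ν.real U)

section

variable {ν : Measure ℝ} [IsProbabilityMeasure ν] {A U : Set ℝ} {c0 θ ε : ℝ}

theorem measurable_Fm (hA : MeasurableSet A) (hU : MeasurableSet U) : Measurable (Fm A U) := by
  unfold Fm
  refine Measurable.ite ?_ measurable_snd measurable_fst
  exact (measurable_fst hU).inter (measurable_snd hA)

omit [IsProbabilityMeasure ν] in
theorem measurable_dn (hA : MeasurableSet A) (hU : MeasurableSet U) :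
    Measurable (dn ν A U ε) := by
  unfold dn
  have h1 : Measurable (A.indicator (fun _ => (1 : ℝ))) := measurable_const.indicator hA
  have h2 : Measurable (U.indicator (fun _ => (1 : ℝ))) := measurable_const.indicator hU
  exact ((h1.div_const _).sub (h2.div_const _)).const_mul ε |>.const_add 1

omit [IsProbabilityMeasure ν] in
theorem pm_apply (hc : c0 ∉ A) {s : Set ℝ} (hs : MeasurableSet s) (hsA : s ⊆ A) :
    pm ν A c0 θ s = ENNReal.ofReal θ * ((ν A)⁻¹ * ν s) := by
  unfold pm
  rw [Measure.add_apply, Measure.smul_apply, Measure.smul_apply, Measure.smul_apply,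
    Measure.restrict_apply hs, Set.inter_eq_left.2 hsA, Measure.dirac_apply' _ hs,
    Set.indicator_of_notMem (fun h => hc (hsA h))]
  simp only [smul_eq_mul, mul_zero, add_zero]

theorem pm_A (hA : MeasurableSet A) (hc : c0 ∉ A) (hνA : ν A ≠ 0) :
    pm ν A c0 θ A = ENNReal.ofReal θ := by
  rw [pm_apply hc hA subset_rfl, ENNReal.inv_mul_cancel hνA (measure_ne_top _ _), mul_one]

omit [IsProbabilityMeasure ν] in
theorem pm_compl (hA : MeasurableSet A) (hc : c0 ∉ A) :
    pm ν A c0 θ Aᶜ = ENNReal.ofReal (1 - θ) := by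
  unfold pm
  rw [Measure.add_apply, Measure.smul_apply, Measure.smul_apply, Measure.smul_apply,
    Measure.restrict_apply hA.compl, Set.compl_inter_self, measure_empty,
    Measure.dirac_apply' _ hA.compl, Set.indicator_of_mem (show c0 ∈ Aᶜ from hc)]
  simp

theorem isProb_pm (hA : MeasurableSet A) (hc : c0 ∉ A) (hνA : ν A ≠ 0) (h0 : 0 ≤ θ)
    (h1 : θ ≤ 1) : IsProbabilityMeasure (pm ν A c0 θ) := by
  constructor
  rw [← measure_add_measure_compl hA, pm_A hA hc hνA, pm_compl hA hc,
    ← ENNReal.ofReal_add h0 (by linarith)]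
  norm_num

omit [IsProbabilityMeasure ν] in
theorem dn_nonneg (hAU : Disjoint A U) (hε : 0 ≤ ε) (hεU : ε ≤ ν.real U)
    (t : ℝ) : 0 ≤ dn ν A U ε t := by
  unfold dn
  have hU0 : 0 ≤ ν.real U := measureReal_nonneg
  have hA0 : 0 ≤ ν.real A := measureReal_nonneg
  by_cases hU : t ∈ U
  · have hA : t ∉ A := fun h => Set.disjoint_left.1 hAU h hU
    rw [Set.indicator_of_mem hU, Set.indicator_of_notMem hA, zero_div, zero_sub, mul_neg,
      mul_one_div]
    have : ε / ν.real U ≤ 1 := div_le_one_of_le₀ hεU hU0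
    linarith
  · rw [Set.indicator_of_notMem hU, zero_div, sub_zero]
    have h2 : 0 ≤ A.indicator (fun _ => (1 : ℝ)) t := Set.indicator_nonneg (fun _ _ => zero_le_one) t
    have : 0 ≤ ε * (A.indicator (fun _ => (1 : ℝ)) t / ν.real A) := by positivity
    linarith

theorem coup_measure (hA : MeasurableSet A) (hU : MeasurableSet U) (hAU : Disjoint A U)
    (hνA : 0 < ν.real A) (hνU : 0 < ν.real U) (hε : 0 ≤ ε) (hεU : ε ≤ ν.real U)
    (hc : c0 ∉ A) :
    (ν.prod (pm ν A c0 (ε / ν.real U))).map (Fm A U) =
      ν.withDensity (fun t => ENNReal.ofReal (dn ν A U ε t)) := by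
  classical
  have hνA' : ν A ≠ 0 := fun h => by simp [Measure.real, h] at hνA
  have hθ0 : 0 ≤ ε / ν.real U := div_nonneg hε hνU.le
  have hθ1 : ε / ν.real U ≤ 1 := div_le_one_of_le₀ hεU hνU.le
  have hpm := isProb_pm (ν := ν) (θ := ε / ν.real U) hA hc hνA' hθ0 hθ1
  set θ := ε / ν.real U with hθ
  set ρ : ℝ → ENNReal := fun t => if t ∈ U then ENNReal.ofReal (1 - θ) else 1 with hρ
  ext s hs
  rw [Measure.map_apply (measurable_Fm hA hU) hs, Measure.prod_apply (measurable_Fm hA hU hs),
    withDensity_apply _ hs]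
  set K : ENNReal := ENNReal.ofReal θ * ((ν A)⁻¹ * ν (A ∩ s)) with hK
  have h1 : ∀ t, (pm ν A c0 θ) (Prod.mk t ⁻¹' (Fm A U ⁻¹' s)) =
      U.indicator (fun _ => K) t + s.indicator ρ t := by
    intro t
    by_cases ht : t ∈ U
    · have hpre : Prod.mk t ⁻¹' (Fm A U ⁻¹' s) = (A ∩ s) ∪ (Aᶜ ∩ {_z : ℝ | t ∈ s}) := by
        ext z
        simp only [Set.mem_preimage, Fm, ht, true_and, Set.mem_union, Set.mem_inter_iff,
          Set.mem_compl_iff, Set.mem_ofPred_eq]
        by_cases hz : z ∈ A
        · simp [hz]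
        · simp [hz]
      have hmeas : MeasurableSet (Aᶜ ∩ {_z : ℝ | t ∈ s}) := by
        by_cases hts : t ∈ s
        · simpa [hts] using hA
        · simp [hts]
      rw [hpre, measure_union _ hmeas, pm_apply hc (hA.inter hs) Set.inter_subset_left,
        Set.indicator_of_mem ht]
      · congr 1
        by_cases hts : t ∈ s
        · rw [Set.indicator_of_mem hts]
          simp only [hρ, ht, if_true, hts, Set.ofPred_true, Set.inter_univ]
          exact pm_compl hA hc
        · rw [Set.indicator_of_notMem hts]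
          simp [hts]
      · rw [Set.disjoint_left]
        rintro z hz hz'
        exact hz'.1 hz.1
    · have hpre : Prod.mk t ⁻¹' (Fm A U ⁻¹' s) = {_z : ℝ | t ∈ s} := by
        ext z
        simp [Fm, ht]
      rw [hpre, Set.indicator_of_notMem ht, zero_add]
      by_cases hts : t ∈ s
      · rw [Set.indicator_of_mem hts]
        simp [hts, hρ, ht]
      · rw [Set.indicator_of_notMem hts]
        simp [hts]
  have hρm : Measurable ρ := by
    rw [hρ]
    exact Measurable.ite hU measurable_const measurable_const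
  rw [lintegral_congr h1, lintegral_add_left (measurable_const.indicator hU),
    lintegral_indicator hU, lintegral_indicator hs, setLIntegral_const]
  have h2 : ∀ t, ENNReal.ofReal (dn ν A U ε t) =
      A.indicator (fun _ => ENNReal.ofReal (ε / ν.real A)) t + ρ t := by
    intro t
    by_cases ht : t ∈ U
    · have htA : t ∉ A := fun h => Set.disjoint_left.1 hAU h ht
      rw [Set.indicator_of_notMem htA, zero_add]
      simp only [hρ, ht, if_true, dn, Set.indicator_of_mem, Set.indicator_of_notMem htA, zero_div,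
        zero_sub, mul_neg, mul_one_div, ← hθ]
      congr 1
    · by_cases htA : t ∈ A
      · rw [Set.indicator_of_mem htA]
        simp only [hρ, ht, if_false, dn, Set.indicator_of_mem htA, Set.indicator_of_notMem ht,
          zero_div, sub_zero, mul_one_div]
        rw [add_comm, ENNReal.ofReal_add (by positivity) zero_le_one, ENNReal.ofReal_one]
      · rw [Set.indicator_of_notMem htA, zero_add]
        simp [hρ, ht, dn, htA]
  rw [lintegral_congr h2, lintegral_add_left (measurable_const.indicator hA), add_comm]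
  rw [setLIntegral_indicator hA, setLIntegral_const, add_comm]
  congr 1
  -- `K * ν U = ofReal (ε / ν A) * ν (A ∩ s)`
  rw [hK]
  have h3 : ENNReal.ofReal θ * ν U = ENNReal.ofReal ε := by
    rw [← ofReal_measureReal (measure_ne_top ν U), ← ENNReal.ofReal_mul hθ0, hθ,
      div_mul_cancel₀ _ hνU.ne']
  have h4 : ENNReal.ofReal (ε / ν.real A) = ENNReal.ofReal ε * (ν A)⁻¹ := by
    rw [div_eq_mul_inv, ENNReal.ofReal_mul hε, ENNReal.ofReal_inv_of_pos hνA,
      ofReal_measureReal (measure_ne_top ν A)]
  rw [h4, ← h3]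
  ring

/-- almost every point of a finite product lies in the box -/
theorem ae_box {ι : Type*} [Fintype ι] {a b : ℝ} (hν : ν (Set.Icc a b)ᶜ = 0) :
    ∀ᵐ x ∂(Measure.pi fun _ : ι => ν), ∀ i, x i ∈ Set.Icc a b := by
  rw [ae_all_iff]
  intro i
  have h1 : ∀ᵐ t ∂ν, t ∈ Set.Icc a b := by
    rw [ae_iff]
    exact hν
  exact (Measure.quasiMeasurePreserving_eval (fun _ : ι => ν) i).ae h1

open Classical in
/-- **the coupling**: the mean of `G` drops -/
theorem coupling {ι : Type*} [Fintype ι] {a b α β : ℝ} (hA : MeasurableSet A)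
    (hU : MeasurableSet U) (hAU : Disjoint A U) (hνA : 0 < ν.real A) (hνU : 0 < ν.real U)
    (hε : 0 ≤ ε) (hεU : ε ≤ ν.real U) (hAα : ∀ t ∈ A, t ≤ α) (hUβ : ∀ t ∈ U, β ≤ t)
    (hαβ : α ≤ β) (hAab : A ⊆ Set.Icc a b) (hν : ν (Set.Icc a b)ᶜ = 0)
    {G N : (ι → ℝ) → ℝ} (hG : Measurable G) (hN : Measurable N) {C : ℝ}
    (hGC : ∀ x, (∀ i, x i ∈ Set.Icc a b) → |G x| ≤ C)
    (hNC : ∀ x, (∀ i, x i ∈ Set.Icc a b) → |N x| ≤ C)
    (w : (ι → ℝ) → Finset ι)
    (hw : ∀ x x', (∀ i, x i ∈ Set.Icc a b) → (∀ i, x' i ∈ Set.Icc a b) →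
      G x' ≤ G x + ∑ i ∈ w x, (x' i - x i))
    (hwN : ∀ x, (∀ i, x i ∈ Set.Icc a b) → N x ≤ (((w x).filter (fun i => x i ∈ U)).card : ℝ)) :
    ∫ x, G x ∂(Measure.pi fun _ : ι => ν.withDensity (fun t => ENNReal.ofReal (dn ν A U ε t))) ≤
      ∫ x, G x ∂(Measure.pi fun _ : ι => ν) -
        ε / ν.real U * (β - α) * ∫ x, N x ∂(Measure.pi fun _ : ι => ν) := by
  have hc : (b + 1) ∉ A := by
    intro h
    have := (hAab h).2
    linarith
  have hνA' : ν A ≠ 0 := fun h => by simp [Measure.real, h] at hνA
  have hθ0 : 0 ≤ ε / ν.real U := div_nonneg hε hνU.le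
  have hθ1 : ε / ν.real U ≤ 1 := div_le_one_of_le₀ hεU hνU.le
  have hpm := isProb_pm (ν := ν) (θ := ε / ν.real U) hA hc hνA' hθ0 hθ1
  rw [← coup_measure hA hU hAU hνA hνU hε hεU hc]
  set θ := ε / ν.real U with hθ
  set π := pm ν A (b + 1) θ with hπ
  have hFm := measurable_Fm hA hU
  have hFmeas : Measurable (fun q : (ι → ℝ) × (ι → ℝ) => fun i => Fm A U (q.1 i, q.2 i)) := by
    refine measurable_pi_lambda _ fun i => ?_
    exact hFm.comp (((measurable_pi_apply i).comp measurable_fst).prodMk
      ((measurable_pi_apply i).comp measurable_snd))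
  have hFbox : ∀ x z : ι → ℝ, (∀ i, x i ∈ Set.Icc a b) → ∀ i, Fm A U (x i, z i) ∈ Set.Icc a b := by
    intro x z hx i
    unfold Fm
    split_ifs with h
    · exact hAab h.2
    · exact hx i
  have hbox := ae_box (ι := ι) hν
  -- the pointwise inequality
  have hpt : ∀ x : ι → ℝ, (∀ i, x i ∈ Set.Icc a b) →
      ∫ z, G (fun i => Fm A U (x i, z i)) ∂(Measure.pi fun _ : ι => π) ≤
        G x - θ * (β - α) * N x := by
    intro x hx
    have hm1 : Measurable (fun z : ι → ℝ => G (fun i => Fm A U (x i, z i))) :=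
      hG.comp (hFmeas.comp (measurable_const.prodMk measurable_id))
    have hind : ∀ i, ∫ z : ι → ℝ, A.indicator (fun _ => (1 : ℝ)) (z i)
        ∂(Measure.pi fun _ : ι => π) = θ := by
      intro i
      have h1 : (fun z : ι → ℝ => A.indicator (fun _ => (1 : ℝ)) (z i)) =
          ((fun z : ι → ℝ => z i) ⁻¹' A).indicator (fun _ => (1 : ℝ)) := by
        funext z
        by_cases hz : z i ∈ A
        · rw [Set.indicator_of_mem hz, Set.indicator_of_mem (show z ∈ (fun z : ι → ℝ => z i) ⁻¹' A
            from hz)]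
        · rw [Set.indicator_of_notMem hz,
            Set.indicator_of_notMem (show z ∉ (fun z : ι → ℝ => z i) ⁻¹' A from hz)]
      rw [h1, integral_indicator (measurable_pi_apply i hA), setIntegral_const, smul_eq_mul,
        mul_one, Measure.real, (measurePreserving_eval (fun _ : ι => π) i).measure_preimage
          hA.nullMeasurableSet, hπ, pm_A hA hc hνA', ENNReal.toReal_ofReal hθ0]
    have hle : ∀ z : ι → ℝ, G (fun i => Fm A U (x i, z i)) ≤
        G x + ∑ i ∈ (w x).filter (fun i => x i ∈ U),
          (-(β - α) * A.indicator (fun _ => (1 : ℝ)) (z i)) := by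
      intro z
      refine (hw x _ hx (hFbox x z hx)).trans ?_
      rw [Finset.sum_filter]
      gcongr with i hi
      unfold Fm
      by_cases h1 : x i ∈ U
      · by_cases h2 : z i ∈ A
        · simp only [h1, h2, and_self, if_true, Set.indicator_of_mem]
          have h3 := hAα _ h2
          have h4 := hUβ _ h1
          linarith
        · simp [h1, h2]
      · simp [h1]
    have hi1 : Integrable (fun z : ι → ℝ => G (fun i => Fm A U (x i, z i)))
        (Measure.pi fun _ : ι => π) :=
      Integrable.of_bound hm1.aestronglyMeasurable C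
        (Filter.Eventually.of_forall fun z => hGC _ (hFbox x z hx))
    have hi2 : ∀ i, Integrable (fun z : ι → ℝ => -(β - α) * A.indicator (fun _ => (1 : ℝ)) (z i))
        (Measure.pi fun _ : ι => π) := by
      intro i
      refine Integrable.const_mul ?_ _
      refine Integrable.of_bound (C := 1) ?_ (Filter.Eventually.of_forall fun z => ?_)
      · exact ((measurable_const.indicator hA).comp (measurable_pi_apply i)).aestronglyMeasurable
      · by_cases hz : z i ∈ A
        · simp [hz]
        · simp [hz]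
    calc ∫ z, G (fun i => Fm A U (x i, z i)) ∂(Measure.pi fun _ : ι => π)
        ≤ ∫ z : ι → ℝ, (G x + ∑ i ∈ (w x).filter (fun i => x i ∈ U),
          (-(β - α) * A.indicator (fun _ => (1 : ℝ)) (z i))) ∂(Measure.pi fun _ : ι => π) :=
          integral_mono hi1 ((integrable_const _).add (integrable_finsetSum _ fun i _ => hi2 i))
            hle
      _ = G x - θ * (β - α) * ((w x).filter (fun i => x i ∈ U)).card := by
          rw [integral_add (integrable_const _) (integrable_finsetSum _ fun i _ => hi2 i),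
            integral_finsetSum _ (fun i _ => hi2 i), integral_const]
          simp only [integral_const_mul, hind, Finset.sum_const, nsmul_eq_mul, probReal_univ,
            one_smul]
          ring
      _ ≤ G x - θ * (β - α) * N x := by
          have h5 : 0 ≤ θ * (β - α) := mul_nonneg hθ0 (by linarith)
          have := mul_le_mul_of_nonneg_left (hwN x hx) h5
          linarith
  -- Fubini
  have hmG : Measurable (fun q : (ι → ℝ) × (ι → ℝ) => G (fun i => Fm A U (q.1 i, q.2 i))) :=
    hG.comp hFmeas
  have hiG : Integrable (fun q : (ι → ℝ) × (ι → ℝ) => G (fun i => Fm A U (q.1 i, q.2 i)))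
      ((Measure.pi fun _ : ι => ν).prod (Measure.pi fun _ : ι => π)) := by
    refine Integrable.of_bound hmG.aestronglyMeasurable C ?_
    have h1 := (Measure.quasiMeasurePreserving_fst (μ := Measure.pi fun _ : ι => ν)
      (ν := Measure.pi fun _ : ι => π)).ae hbox
    filter_upwards [h1] with q hq
    exact hGC _ (hFbox q.1 q.2 hq)
  have hmp := measurePreserving_arrowProdEquivProdArrow ℝ ℝ ι (fun _ => ν) (fun _ => π)
  have hpm' : IsProbabilityMeasure ((ν.prod π).map (Fm A U)) :=
    Measure.isProbabilityMeasure_map hFm.aemeasurable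
  have hstep : ∫ x, G x ∂(Measure.pi fun _ : ι => (ν.prod π).map (Fm A U)) =
      ∫ x, ∫ z, G (fun i => Fm A U (x i, z i)) ∂(Measure.pi fun _ : ι => π)
        ∂(Measure.pi fun _ : ι => ν) := by
    have hF1 : Measurable (fun (x : ι → ℝ × ℝ) (i : ι) => Fm A U (x i)) :=
      measurable_pi_lambda _ fun i => hFm.comp (measurable_pi_apply i)
    rw [← Measure.pi_map_pi (fun _ : ι => hFm.aemeasurable),
      integral_map hF1.aemeasurable hG.aestronglyMeasurable,
      ← integral_prod _ hiG, ← hmp.integral_comp' (g := fun q : (ι → ℝ) × (ι → ℝ) =>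
        G (fun i => Fm A U (q.1 i, q.2 i)))]
    rfl
  rw [hstep]
  have hiN : Integrable N (Measure.pi fun _ : ι => ν) := by
    refine Integrable.of_bound hN.aestronglyMeasurable C ?_
    filter_upwards [hbox] with x hx
    exact hNC x hx
  have hiG0 : Integrable G (Measure.pi fun _ : ι => ν) := by
    refine Integrable.of_bound hG.aestronglyMeasurable C ?_
    filter_upwards [hbox] with x hx
    exact hGC x hx
  calc ∫ x, ∫ z, G (fun i => Fm A U (x i, z i)) ∂(Measure.pi fun _ : ι => π)
        ∂(Measure.pi fun _ : ι => ν)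
      ≤ ∫ x, (G x - θ * (β - α) * N x) ∂(Measure.pi fun _ : ι => ν) := by
        refine integral_mono_ae hiG.integral_prod_left (hiG0.sub (hiN.const_mul _)) ?_
        filter_upwards [hbox] with x hx
        exact hpt x hx
    _ = _ := by
        rw [integral_sub hiG0 (hiN.const_mul _), integral_const_mul]

end

end Pool.Agent.Helper33.PG
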