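import Pool.Agent.Helper51.NP.Defs
import Pool.Agent.Helper94.PG.HerbstI
import Pool.Agent.Helper33.PG.Upd

/-!
# Project NP (MP_13b103_pr), block B: the Herbst bound for `T (cut S B c)`, `S` any set of edges
-/

set_option autoImplicit false

namespace Pool.Agent.Helper33.NP

open MeasureTheory ProbabilityTheory
open Pool.Agent.Helper79.GR Pool.Agent.Helper51.NP Pool.Agent.Helper94.PG Pool.Agent.Helper33.PG

variable {Ω : Type*} [MeasurableSpace Ω] {d : ℕ} {P : Measure Ω} {X : Edge d → Ω → ℝ}
  {ν : Measure ℝ} {a b B l : ℝ}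

theorem cut_mem {S : Set (Edge d)} {e : Edge d} (he : e ∈ S) (B : ℝ) (c : Edge d → ℝ) :
    cut S B c e = c e := by
  classical
  unfold cut
  exact Set.piecewise_eq_of_mem _ _ _ he

theorem cut_notMem {S : Set (Edge d)} {e : Edge d} (he : e ∉ S) (B : ℝ) (c : Edge d → ℝ) :
    cut S B c e = B := by
  classical
  unfold cut
  exact Set.piecewise_eq_of_notMem _ _ _ he

theorem cut_bd {c : Edge d → ℝ} (h : Bd a b c) (hB : b ≤ B) (S : Set (Edge d)) :
    Bd a B (cut S B c) := by
  refine ⟨h.1, fun e => ?_⟩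
  have h1 := h.2 e
  by_cases he : e ∈ S
  · rw [cut_mem he]
    exact ⟨h1.1, h1.2.trans hB⟩
  · rw [cut_notMem he]
    exact ⟨h1.1.trans (h1.2.trans hB), le_rfl⟩

theorem measurable_cut (B : ℝ) (S : Set (Edge d)) :
    Measurable fun c : Edge d → ℝ => cut S B c := by
  refine measurable_pi_lambda _ fun e => ?_
  by_cases he : e ∈ S
  · simp only [cut_mem he]
    exact measurable_pi_apply e
  · simp only [cut_notMem he]
    exact measurable_const

theorem measurable_T_cut (B : ℝ) (S : Set (Edge d)) (x y : V d) :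
    Measurable fun c : Edge d → ℝ => T (cut S B c) x y :=
  (measurable_T_cfg x y).comp (measurable_cut B S)

theorem measurable_T_cut_env (h : Env P X ν a b) (S : Set (Edge d)) (x y : V d) :
    Measurable fun ω => T (cut S B (cf X ω)) x y :=
  (measurable_T_cut B S x y).comp (measurable_pi_lambda _ fun e => h.meas e)

theorem cut_update [DecidableEq (Edge d)] (B : ℝ) {S : Set (Edge d)} (c : Edge d → ℝ)
    {e : Edge d} (he : e ∈ S) (t : ℝ) :
    cut S B (Function.update c e t) = Function.update (cut S B c) e t := by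
  funext f
  by_cases hf : f = e
  · subst hf
    rw [cut_mem he, Function.update_self, Function.update_self]
  · rw [Function.update_of_ne hf]
    by_cases hS : f ∈ S
    · rw [cut_mem hS, cut_mem hS, Function.update_of_ne hf]
    · rw [cut_notMem hS, cut_notMem hS]

theorem T_cut_bd {c : Edge d → ℝ} (h : Bd a b c) (hB : b ≤ B) (S : Set (Edge d)) (x y : V d) :
    0 ≤ T (cut S B c) x y ∧ T (cut S B c) x y ≤ B * n1 (y - x) := by
  have h1 := cut_bd h hB S
  exact ⟨(mul_nonneg h1.1.le (n1_nonneg _)).trans (le_T h1 x y), T_le h1 x y⟩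

/-- **Herbst's bound** -/
theorem herbst (h : Env P X ν a b) (hB : b ≤ B) (S : Set (Edge d)) (hl : 0 ≤ l) (x y : V d) :
    Zc P X S B l x y ≤
      Real.exp (-(l * mc P X S B x y) + hk a b B * l ^ 2 * n1 (y - x)) := by
  classical
  have := h.prob
  obtain ⟨ω₀⟩ := nonempty_of_isProbabilityMeasure P
  have hbd : ∀ c : Edge d → ℝ, Box a b c → Bd a b c := fun c hc => ⟨h.apos, hc⟩
  obtain ⟨L, hL⟩ := exists_nat_ge (B * n1 (y - x) / a)
  have hL' : B * n1 (y - x) ≤ a * L := by
    rw [div_le_iff₀ h.apos] at hL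
    linarith
  have key := Pool.Agent.Helper94.PG.herbst (P := P) h.meas h.indep h.bd
    ((box x L).filter (fun e => e ∈ S)) (Z := fun c => T (cut S B c) x y)
    (M := B * n1 (y - x)) (K := (b - a) ^ 2 * (B * n1 (y - x) / a))
    (measurable_T_cut B S x y) ?_ ?_ ?_ ?_ hl
  · refine key.trans (le_of_eq ?_)
    have ha := h.apos.ne'
    have e1 : l ^ 2 * ((b - a) ^ 2 * (B * n1 (y - x) / a)) / 2 =
        hk a b B * l ^ 2 * n1 (y - x) := by
      unfold hk
      field_simp
    rw [e1]
    rfl
  · intro c c' hc hc' hcc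
    refine T_congr (cut_bd (hbd c hc) hB S) (cut_bd (hbd c' hc') hB S) x y L hL' ?_
    intro e he
    by_cases heS : e ∈ S
    · rw [cut_mem heS, cut_mem heS]
      exact hcc e (Finset.mem_filter.2 ⟨he, heS⟩)
    · rw [cut_notMem heS, cut_notMem heS]
  · intro c hc
    have h1 := T_cut_bd (hbd c hc) hB S x y
    rw [abs_of_nonneg h1.1]
    exact h1.2
  · intro c hc e he
    have heS := (Finset.mem_filter.1 he).2
    rw [cut_update B c heS]
    refine T_update_ge (cut_bd (hbd c hc) hB S) e ?_ hB x y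
    rw [cut_mem heS]
    exact (hc e).2
  · intro c hc
    have h1 := sum_sq_update (cut_bd (hbd c hc) hB S) hB ((box x L).filter (fun e => e ∈ S))
      (fun e he => by
        rw [cut_mem (Finset.mem_filter.1 he).2]
        exact (hc e).2) x y
    refine le_trans (le_of_eq ?_) h1
    refine Finset.sum_congr rfl fun e he => ?_
    rw [cut_update B c (Finset.mem_filter.1 he).2]

end Pool.Agent.Helper33.NP
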